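import Mathlib

set_option autoImplicit false
open LaurentPolynomial
open scoped Matrix

namespace Pool.Agent.W580.HT

section ring
variable {R : Type*} [CommRing R]

/-- The rank four unimodular hermitian form. -/
def L4 (t s : R) : Matrix (Fin 4) (Fin 4) R :=
  !![t ^ 2 - 3 * t + 5 - 3 * s + s ^ 2, t ^ 2 - 3 * t + 4 - 3 * s + s ^ 2, -t ^ 2 + 4 * t - 6 + 4 * s - s ^ 2, -t ^ 2 + 4 * t - 6 + 4 * s - s ^ 2;
    t ^ 2 - 3 * t + 4 - 3 * s + s ^ 2, t ^ 2 - 3 * t + 5 - 3 * s + s ^ 2, -t ^ 2 + 4 * t - 6 + 4 * s - s ^ 2, -t ^ 2 + 4 * t - 6 + 4 * s - s ^ 2;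
    -t ^ 2 + 4 * t - 6 + 4 * s - s ^ 2, -t ^ 2 + 4 * t - 6 + 4 * s - s ^ 2, t ^ 2 - 5 * t + 9 - 5 * s + s ^ 2, t ^ 2 - 5 * t + 8 - 5 * s + s ^ 2;
    -t ^ 2 + 4 * t - 6 + 4 * s - s ^ 2, -t ^ 2 + 4 * t - 6 + 4 * s - s ^ 2, t ^ 2 - 5 * t + 8 - 5 * s + s ^ 2, t ^ 2 - 5 * t + 9 - 5 * s + s ^ 2]

def G6 (t s : R) : Matrix (Fin 6) (Fin 6) R :=
  !![t ^ 2 - 3 * t + 5 - 3 * s + s ^ 2, t ^ 2 - 3 * t + 4 - 3 * s + s ^ 2, -t ^ 2 + 4 * t - 6 + 4 * s - s ^ 2, -t ^ 2 + 4 * t - 6 + 4 * s - s ^ 2, 0, 0;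
    t ^ 2 - 3 * t + 4 - 3 * s + s ^ 2, t ^ 2 - 3 * t + 5 - 3 * s + s ^ 2, -t ^ 2 + 4 * t - 6 + 4 * s - s ^ 2, -t ^ 2 + 4 * t - 6 + 4 * s - s ^ 2, 0, 0;
    -t ^ 2 + 4 * t - 6 + 4 * s - s ^ 2, -t ^ 2 + 4 * t - 6 + 4 * s - s ^ 2, t ^ 2 - 5 * t + 9 - 5 * s + s ^ 2, t ^ 2 - 5 * t + 8 - 5 * s + s ^ 2, 0, 0;
    -t ^ 2 + 4 * t - 6 + 4 * s - s ^ 2, -t ^ 2 + 4 * t - 6 + 4 * s - s ^ 2, t ^ 2 - 5 * t + 8 - 5 * s + s ^ 2, t ^ 2 - 5 * t + 9 - 5 * s + s ^ 2, 0, 0;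
    0, 0, 0, 0, 0, t - 1;
    0, 0, 0, 0, s - 1, 0]

def D6 (t s : R) : Matrix (Fin 6) (Fin 6) R :=
  !![1, 0, 0, 0, 0, 0;
    0, 1, 0, 0, 0, 0;
    0, 0, 1, 0, 0, 0;
    0, 0, 0, 1, 0, 0;
    0, 0, 0, 0, 0, t - 1;
    0, 0, 0, 0, s - 1, 0]

def P6 (t s : R) : Matrix (Fin 6) (Fin 6) R :=
  !![1, 0, 0, 0, t ^ 2 - 2 * t + s, -2 * t ^ 2 + 5 * t - 3;
    0, 1, 0, 0, t ^ 2 - 2 * t + s, -2 * t ^ 2 + 5 * t - 3;
    0, 0, 1, 0, t ^ 2 - t, -2 * t ^ 2 + 3 * t - 1;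
    0, 0, 0, 1, t ^ 2 - t, -2 * t ^ 2 + 3 * t - 1;
    1, 1, -1, -1, 1 + 2 * s, -4;
    -t + 1 - s, -t + 1 - s, t - 2 + 2 * s, t - 2 + 2 * s, -t + 2 * s - 3 * s ^ 2, 4 * t - 7 + 6 * s]

def P6' (t s : R) : Matrix (Fin 6) (Fin 6) R :=
  !![t ^ 2 - 3 * t + 5 - 3 * s + s ^ 2, t ^ 2 - 3 * t + 4 - 3 * s + s ^ 2, -t ^ 2 + 4 * t - 6 + 4 * s - s ^ 2, -t ^ 2 + 4 * t - 6 + 4 * s - s ^ 2, t - 2 + 2 * s - s ^ 2, t - 1;
    t ^ 2 - 3 * t + 4 - 3 * s + s ^ 2, t ^ 2 - 3 * t + 5 - 3 * s + s ^ 2, -t ^ 2 + 4 * t - 6 + 4 * s - s ^ 2, -t ^ 2 + 4 * t - 6 + 4 * s - s ^ 2, t - 2 + 2 * s - s ^ 2, t - 1;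
    -t ^ 2 + 4 * t - 6 + 4 * s - s ^ 2, -t ^ 2 + 4 * t - 6 + 4 * s - s ^ 2, t ^ 2 - 5 * t + 9 - 5 * s + s ^ 2, t ^ 2 - 5 * t + 8 - 5 * s + s ^ 2, -2 * t + 4 - 3 * s + s ^ 2, -t + 1;
    -t ^ 2 + 4 * t - 6 + 4 * s - s ^ 2, -t ^ 2 + 4 * t - 6 + 4 * s - s ^ 2, t ^ 2 - 5 * t + 8 - 5 * s + s ^ 2, t ^ 2 - 5 * t + 9 - 5 * s + s ^ 2, -2 * t + 4 - 3 * s + s ^ 2, -t + 1;
    4 * t ^ 2 - 10 * t + 11 - 4 * s, 4 * t ^ 2 - 10 * t + 11 - 4 * s, -4 * t ^ 2 + 14 * t - 15 + 4 * s, -4 * t ^ 2 + 14 * t - 15 + 4 * s, 6 * t - 7 + 4 * s, 4 * t;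
    2 * t ^ 2 - 4 * t + 3 + s - s ^ 2, 2 * t ^ 2 - 4 * t + 3 + s - s ^ 2, -2 * t ^ 2 + 6 * t - 4 - 2 * s + s ^ 2, -2 * t ^ 2 + 6 * t - 4 - 2 * s + s ^ 2, 3 * t - 2 + s ^ 2, 2 * t + 1]

theorem inv1 (t s : R) (h : t * s = 1) : P6 t s * P6' t s = 1 := by
  ext i j
  fin_cases i <;> fin_cases j <;>
    simp [P6, P6', Matrix.mul_apply, Fin.sum_univ_succ] <;> grind

theorem inv2 (t s : R) (h : t * s = 1) : P6' t s * P6 t s = 1 :=
  mul_eq_one_comm.mp (inv1 t s h)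

theorem half (t s : R) (h : t * s = 1) : (P6 s t)ᵀ * G6 t s = D6 t s * P6' t s := by
  ext i j
  fin_cases i <;> fin_cases j <;>
    simp [P6, P6', G6, D6, Matrix.mul_apply, Fin.sum_univ_succ] <;> grind

theorem iso (t s : R) (h : t * s = 1) : (P6 s t)ᵀ * G6 t s * P6 t s = D6 t s := by
  rw [half t s h, Matrix.mul_assoc, inv2 t s h, Matrix.mul_one]

/-- Twice the coordinates of the basis vectors in an orthonormal frame. -/
def A4 (t s : R) : Matrix (Fin 4) (Fin 4) R :=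
  !![1 + 2 * (t - 2 + s), 1 + 2 * (t - 2 + s), 1 - 2 * (t - 2 + s), 1 - 2 * (t - 2 + s);
    1, -1, 1, -1;
    1, 1, -1, -1;
    1, -1, -1, 1]

theorem A4_sq (t s : R) (h : t * s = 1) : (A4 s t)ᵀ * A4 t s = 4 • L4 t s := by
  ext i j
  fin_cases i <;> fin_cases j <;>
    simp [A4, L4, Matrix.mul_apply, Fin.sum_univ_succ] <;> grind

/-- an inverse of `L4` -/
def L4i (t s : R) : Matrix (Fin 4) (Fin 4) R :=
  !![t ^ 2 - 5 * t + 9 - 5 * s + s ^ 2, t ^ 2 - 5 * t + 8 - 5 * s + s ^ 2, t ^ 2 - 4 * t + 6 - 4 * s + s ^ 2, t ^ 2 - 4 * t + 6 - 4 * s + s ^ 2;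
    t ^ 2 - 5 * t + 8 - 5 * s + s ^ 2, t ^ 2 - 5 * t + 9 - 5 * s + s ^ 2, t ^ 2 - 4 * t + 6 - 4 * s + s ^ 2, t ^ 2 - 4 * t + 6 - 4 * s + s ^ 2;
    t ^ 2 - 4 * t + 6 - 4 * s + s ^ 2, t ^ 2 - 4 * t + 6 - 4 * s + s ^ 2, t ^ 2 - 3 * t + 5 - 3 * s + s ^ 2, t ^ 2 - 3 * t + 4 - 3 * s + s ^ 2;
    t ^ 2 - 4 * t + 6 - 4 * s + s ^ 2, t ^ 2 - 4 * t + 6 - 4 * s + s ^ 2, t ^ 2 - 3 * t + 4 - 3 * s + s ^ 2, t ^ 2 - 3 * t + 5 - 3 * s + s ^ 2]

theorem L4_inv (t s : R) (h : t * s = 1) : L4 t s * L4i t s = 1 := by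
  ext i j
  fin_cases i <;> fin_cases j <;>
    simp [L4, L4i, Matrix.mul_apply, Fin.sum_univ_succ] <;> grind

variable {S : Type*} [CommRing S]

theorem L4_map (f : R →+* S) (t s : R) : (L4 t s).map f = L4 (f t) (f s) := by
  refine Matrix.ext fun i j => ?_
  fin_cases i <;> fin_cases j <;> simp [L4, map_ofNat]

theorem A4_map (f : R →+* S) (t s : R) : (A4 t s).map f = A4 (f t) (f s) := by
  refine Matrix.ext fun i j => ?_
  fin_cases i <;> fin_cases j <;> simp [A4, map_ofNat]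

theorem P6_map (f : R →+* S) (t s : R) : (P6 t s).map f = P6 (f t) (f s) := by
  refine Matrix.ext fun i j => ?_
  fin_cases i <;> fin_cases j <;> simp [P6, map_ofNat]

theorem L4_transpose (t s : R) : (L4 s t)ᵀ = L4 t s := by
  refine Matrix.ext fun i j => ?_
  fin_cases i <;> fin_cases j <;> simp [L4] <;> ring

theorem L4_one : L4 (1 : R) 1 = 1 := by
  refine Matrix.ext fun i j => ?_
  fin_cases i <;> fin_cases j <;> norm_num [L4]

end ring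

/-! ### coefficients -/

theorem sigma_eq (σ : LaurentPolynomial ℤ →+* LaurentPolynomial ℤ) (hσ : σ (T 1) = T (-1))
    (p : LaurentPolynomial ℤ) : σ p = invert p := by
  have hC : ∀ a : ℤ, σ (C a) = C a := fun a => by
    have : (C a : LaurentPolynomial ℤ) = (a : LaurentPolynomial ℤ) := by simp
    rw [this]; simp
  have hm : σ (T (-1)) = T 1 := by
    have h1 : σ (T (-1)) * T (-1) = 1 := by
      have : σ (T (-1)) * σ (T 1) = 1 := by rw [← map_mul, ← T_add]; simp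
      rwa [hσ] at this
    calc σ (T (-1)) = σ (T (-1)) * (T (-1) * T 1) := by rw [← T_add]; simp
      _ = 1 * T 1 := by rw [← mul_assoc, h1]
      _ = T 1 := one_mul _
  have hpos : ∀ n : ℕ, σ (T (n : ℤ)) = T (-(n : ℤ)) := fun n => by
    have : (T (n : ℤ) : LaurentPolynomial ℤ) = T 1 ^ n := by rw [T_pow]; simp
    rw [this, map_pow, hσ, T_pow]; congr 1; ring
  have hneg : ∀ n : ℕ, σ (T (-(n : ℤ))) = T (n : ℤ) := fun n => by
    have : (T (-(n : ℤ)) : LaurentPolynomial ℤ) = T (-1) ^ n := by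
      rw [T_pow]; congr 1; ring
    rw [this, map_pow, hm, T_pow]; congr 1; ring
  have hT : ∀ n : ℤ, σ (T n) = T (-n) := fun n => by
    obtain ⟨m, rfl | rfl⟩ := n.eq_nat_or_neg
    · exact hpos m
    · rw [hneg]; simp
  refine p.induction_on' (fun p q hp hq => ?_) (fun n a => ?_)
  · rw [map_add, map_add, hp, hq]
  · rw [map_mul, map_mul, hC, hT, invert_C, invert_T]

theorem bil (u w : LaurentPolynomial ℤ) (K : Finset ℤ) (hK : w.coeff.support ⊆ K) :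
    (invert u * w).coeff 0 = ∑ k ∈ K, u.coeff k * w.coeff k := by
  have hw : w = ∑ k ∈ K, C (w.coeff k) * T k := by
    ext a
    simp only [← single_eq_C_mul_T, AddMonoidAlgebra.coeff_sum, AddMonoidAlgebra.coeff_single,
      Finsupp.finsetSum_apply]
    rw [Finset.sum_eq_single a]
    · simp
    · intro b _ hb; simp [hb]
    · intro ha
      simpa using fun h => ha (hK (Finsupp.mem_support_iff.mpr h))
  conv_lhs => rw [hw]
  rw [Finset.mul_sum, AddMonoidAlgebra.coeff_sum, Finsupp.finsetSum_apply]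
  refine Finset.sum_congr rfl fun k _ => ?_
  rw [← single_eq_C_mul_T]
  have := AddMonoidAlgebra.coeff_mul_single_add (invert u) (w.coeff k) k (-k)
  rw [neg_add_cancel] at this
  rw [this]; simp

theorem arith (a1 a2 a3 a4 x y z : ℤ → ℤ) (K : Finset ℤ)
    (h1 : ∀ k ∉ K, a1 k = 0) (h2 : ∀ k ∉ K, a2 k = 0) (h3 : ∀ k ∉ K, a3 k = 0)
    (h4 : ∀ k ∉ K, a4 k = 0)
    (hr : ∀ k, a1 k - a2 k - a3 k + a4 k = 2 * (a3 (k - 1) - 2 * a3 k + a3 (k + 1)) + 4 * x k)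
    (hy : ∀ k, a2 k = a3 k + 2 * y k) (hz : ∀ k, a4 k = a3 k + 2 * z k)
    (hs : ∑ k ∈ K, (a1 k ^ 2 + a2 k ^ 2 + a3 k ^ 2 + a4 k ^ 2) = 4) : False := by
  by_cases hodd : ∃ k, a3 k % 2 = 1
  · obtain ⟨k0, hk0⟩ := hodd
    have hmem : k0 ∈ K := by
      by_contra h
      rw [h3 k0 h] at hk0; simp at hk0
    rw [← Finset.add_sum_erase K _ hmem] at hs
    have hge : 0 ≤ ∑ k ∈ K.erase k0, (a1 k ^ 2 + a2 k ^ 2 + a3 k ^ 2 + a4 k ^ 2) :=
      Finset.sum_nonneg fun k _ => by positivity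
    have e2 : a2 k0 % 2 = 1 := by have := hy k0; omega
    have e4 : a4 k0 % 2 = 1 := by have := hz k0; omega
    have e1 : a1 k0 % 2 = 1 := by have := hr k0; omega
    have sq : ∀ c : ℤ, c % 2 = 1 → 1 ≤ c ^ 2 := fun c hc => by
      have : c ≠ 0 := by rintro rfl; simp at hc
      have : 0 < c ^ 2 := by positivity
      omega
    have s1 := sq _ e1
    have s2 := sq _ e2
    have s3 := sq _ hk0
    have s4 := sq _ e4
    have hz0 : ∑ k ∈ K.erase k0, (a1 k ^ 2 + a2 k ^ 2 + a3 k ^ 2 + a4 k ^ 2) = 0 := by linarith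
    have hall : ∀ k, k ≠ k0 → a1 k = 0 ∧ a2 k = 0 ∧ a3 k = 0 ∧ a4 k = 0 := by
      intro k hk
      by_cases hkK : k ∈ K
      · have := (Finset.sum_eq_zero_iff_of_nonneg (fun k _ => by positivity)).mp hz0 k
          (Finset.mem_erase.mpr ⟨hk, hkK⟩)
        have p1 := sq_nonneg (a1 k)
        have p2 := sq_nonneg (a2 k)
        have p3 := sq_nonneg (a3 k)
        have p4 := sq_nonneg (a4 k)
        refine ⟨?_, ?_, ?_, ?_⟩ <;> (apply pow_eq_zero_iff (two_ne_zero) |>.mp; linarith)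
      · exact ⟨h1 k hkK, h2 k hkK, h3 k hkK, h4 k hkK⟩
    obtain ⟨b1, b2, b3, b4⟩ := hall (k0 + 1) (by omega)
    obtain ⟨-, -, c3, -⟩ := hall (k0 + 1 + 1) (by omega)
    have := hr (k0 + 1)
    rw [b1, b2, b3, b4, c3, add_sub_cancel_right] at this
    omega
  · have h8 : (8 : ℤ) ∣ ∑ k ∈ K, (a1 k ^ 2 + a2 k ^ 2 + a3 k ^ 2 + a4 k ^ 2) := by
      refine Finset.dvd_sum fun k _ => ?_
      have ev : ∀ k, ∃ c, a3 k = 2 * c := fun k => ⟨a3 k / 2, by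
        have : ¬ a3 k % 2 = 1 := fun h => hodd ⟨k, h⟩
        omega⟩
      obtain ⟨c, hc⟩ := ev k
      obtain ⟨c', hc'⟩ := ev (k - 1)
      obtain ⟨c'', hc''⟩ := ev (k + 1)
      have e2 : a2 k = 2 * (c + y k) := by rw [hy, hc]; ring
      have e4 : a4 k = 2 * (c + z k) := by rw [hz, hc]; ring
      have e1 : a1 k = 2 * (c + y k - z k + 2 * (c' - 2 * c + c'' + x k)) := by
        have := hr k
        rw [hc', hc'', hc, e2, e4] at this
        linarith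
      rw [e1, e2, e4, hc]
      generalize y k = y
      generalize z k = z
      generalize c' - 2 * c + c'' + x k = m
      obtain ⟨u, rfl | rfl⟩ := Int.even_or_odd' c <;> obtain ⟨v, rfl | rfl⟩ := Int.even_or_odd' y <;>
        obtain ⟨w, rfl | rfl⟩ := Int.even_or_odd' z <;> ring_nf <;> omega
    rw [hs] at h8
    omega

theorem coeff_T_mul (n k : ℤ) (w : LaurentPolynomial ℤ) :
    (T n * w).coeff k = w.coeff (k - n) := by
  have := AddMonoidAlgebra.coeff_single_mul_add w (1 : ℤ) n (k - n)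
  rw [T]
  simpa using this

/-- no vector of the lattice has norm one -/
theorem no_norm_one (v : Fin 4 → LaurentPolynomial ℤ)
    (h : ∑ i, invert ((A4 (T 1) (T (-1)) *ᵥ v) i) * (A4 (T 1) (T (-1)) *ᵥ v) i
      = (4 : LaurentPolynomial ℤ)) : False := by
  set w := A4 (T 1) (T (-1)) *ᵥ v with hw
  have w0 : w 0 = (1 + 2 * (T 1 - 2 + T (-1))) * (v 0 + v 1)
      + (1 - 2 * (T 1 - 2 + T (-1))) * (v 2 + v 3) := by
    simp [hw, A4, dotProduct, Fin.sum_univ_succ]; ring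
  have w1 : w 1 = v 0 - v 1 + v 2 - v 3 := by
    simp [hw, A4, dotProduct, Fin.sum_univ_succ]; ring
  have w2 : w 2 = v 0 + v 1 - v 2 - v 3 := by
    simp [hw, A4, dotProduct, Fin.sum_univ_succ]; ring
  have w3 : w 3 = v 0 - v 1 - v 2 + v 3 := by
    simp [hw, A4, dotProduct, Fin.sum_univ_succ]; ring
  have r1 : w 0 - w 1 - w 2 + w 3 =
      C 2 * (T 1 * w 2 - C 2 * w 2 + T (-1) * w 2) + C 4 * v 3 := by
    have c2 : (C 2 : LaurentPolynomial ℤ) = 2 := by simp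
    have c4 : (C 4 : LaurentPolynomial ℤ) = 4 := by simp
    rw [w0, w1, w2, w3, c2, c4]; ring
  have r2 : w 1 = w 2 + C 2 * (v 2 - v 1) := by
    have c2 : (C 2 : LaurentPolynomial ℤ) = 2 := by simp
    rw [w1, w2, c2]; ring
  have r4 : w 3 = w 2 + C 2 * (v 3 - v 1) := by
    have c2 : (C 2 : LaurentPolynomial ℤ) = 2 := by simp
    rw [w3, w2, c2]; ring
  have cC : ∀ (a : ℤ) (p : LaurentPolynomial ℤ) (k : ℤ), (C a * p).coeff k = a * p.coeff k := by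
    intro a p k
    rw [← smul_eq_C_mul, AddMonoidAlgebra.coeff_smul]; rfl
  clear_value w
  let K : Finset ℤ := (w 0).coeff.support ∪ (w 1).coeff.support ∪ (w 2).coeff.support
    ∪ (w 3).coeff.support
  have k0 : (w 0).coeff.support ⊆ K := by
    intro a ha; simp only [K, Finset.mem_union]; tauto
  have k1 : (w 1).coeff.support ⊆ K := by
    intro a ha; simp only [K, Finset.mem_union]; tauto
  have k2 : (w 2).coeff.support ⊆ K := by
    intro a ha; simp only [K, Finset.mem_union]; tauto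
  have k3 : (w 3).coeff.support ⊆ K := by
    intro a ha; simp only [K, Finset.mem_union]; tauto
  have nz : ∀ (p : LaurentPolynomial ℤ), p.coeff.support ⊆ K → ∀ k ∉ K, p.coeff k = 0 := by
    intro p hp k hk
    by_contra hne
    exact hk (hp (Finsupp.mem_support_iff.mpr hne))
  refine arith (fun k => (w 0).coeff k) (fun k => (w 1).coeff k) (fun k => (w 2).coeff k)
    (fun k => (w 3).coeff k) (fun k => (v 3).coeff k) (fun k => (v 2 - v 1).coeff k)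
    (fun k => (v 3 - v 1).coeff k) K (nz _ k0) (nz _ k1) (nz _ k2) (nz _ k3) ?_ ?_ ?_ ?_
  · intro k
    have := congrArg (fun p : LaurentPolynomial ℤ => p.coeff k) r1
    simp only [AddMonoidAlgebra.coeff_add, AddMonoidAlgebra.coeff_sub, Finsupp.add_apply,
      Finsupp.sub_apply, cC, coeff_T_mul] at this
    rw [sub_neg_eq_add] at this
    exact this
  · intro k
    have := congrArg (fun p : LaurentPolynomial ℤ => p.coeff k) r2
    simp only [AddMonoidAlgebra.coeff_add, Finsupp.add_apply, cC] at this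
    exact this
  · intro k
    have := congrArg (fun p : LaurentPolynomial ℤ => p.coeff k) r4
    simp only [AddMonoidAlgebra.coeff_add, Finsupp.add_apply, cC] at this
    exact this
  · have := congrArg (fun p : LaurentPolynomial ℤ => p.coeff 0) h
    simp only [Fin.sum_univ_four, AddMonoidAlgebra.coeff_add, Finsupp.add_apply] at this
    rw [bil _ _ K k0, bil _ _ K k1, bil _ _ K k2, bil _ _ K k3] at this
    have h4 : (4 : LaurentPolynomial ℤ).coeff 0 = 4 := by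
      have : (4 : LaurentPolynomial ℤ) = C 4 := by simp
      rw [this, C_apply]; simp
    rw [h4, ← Finset.sum_add_distrib, ← Finset.sum_add_distrib, ← Finset.sum_add_distrib] at this
    rw [← this]
    exact Finset.sum_congr rfl fun k _ => by ring

/-! ### change of index types -/

/-- `Fin 4 ⊕ Fin 2 × Fin 1` is `Fin 6`. -/
def ix : Fin 4 ⊕ Fin 2 × Fin 1 → Fin 6
  | Sum.inl i => Fin.castAdd 2 i
  | Sum.inr (j, _) => Fin.natAdd 4 j

def ixi (i : Fin 6) : Fin 4 ⊕ Fin 2 × Fin 1 :=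
  if h : i.val < 4 then Sum.inl ⟨i.val, h⟩ else Sum.inr (⟨i.val - 4, by omega⟩, 0)

def ixe : Fin 4 ⊕ Fin 2 × Fin 1 ≃ Fin 6 where
  toFun := ix
  invFun := ixi
  left_inv := by
    rintro (i | ⟨j, k⟩)
    · fin_cases i <;> rfl
    · fin_cases j <;> fin_cases k <;> rfl
  right_inv := by
    intro i
    fin_cases i <;> rfl

section ring2
variable {R : Type*} [CommRing R]

theorem blockL (t s : R) :
    Matrix.fromBlocks (L4 t s) 0 0 (Matrix.blockDiagonal (fun _ : Fin 1 => !![0, t - 1; s - 1, 0]))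
      = (G6 t s).submatrix ixe ixe := by
  refine Matrix.ext fun i j => ?_
  rcases i with i | ⟨i, k⟩ <;> rcases j with j | ⟨j, l⟩
  · fin_cases i <;> fin_cases j <;> rfl
  · fin_cases i <;> fin_cases j <;> fin_cases l <;> rfl
  · fin_cases i <;> fin_cases j <;> fin_cases k <;> rfl
  · fin_cases i <;> fin_cases j <;> fin_cases k <;> fin_cases l <;>
      simp [Matrix.blockDiagonal_apply, G6, ixe, ix]

theorem blockD (t s : R) :
    Matrix.fromBlocks (1 : Matrix (Fin 4) (Fin 4) R) 0 0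
        (Matrix.blockDiagonal (fun _ : Fin 1 => !![0, t - 1; s - 1, 0]))
      = (D6 t s).submatrix ixe ixe := by
  refine Matrix.ext fun i j => ?_
  rcases i with i | ⟨i, k⟩ <;> rcases j with j | ⟨j, l⟩
  · fin_cases i <;> fin_cases j <;> rfl
  · fin_cases i <;> fin_cases j <;> fin_cases l <;> rfl
  · fin_cases i <;> fin_cases j <;> fin_cases k <;> rfl
  · fin_cases i <;> fin_cases j <;> fin_cases k <;> fin_cases l <;>
      simp [Matrix.blockDiagonal_apply, D6, ixe, ix]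

end ring2

/-! ### the three conditions -/

theorem ts : (T 1 : LaurentPolynomial ℤ) * T (-1) = 1 := by rw [← T_add]; simp

theorem stably_iso (σ : LaurentPolynomial ℤ →+* LaurentPolynomial ℤ)
    (hσt : σ (T 1) = T (-1)) (hσs : σ (T (-1)) = T 1) :
    ∃ (P : Matrix (Fin 4 ⊕ Fin 2 × Fin 1) (Fin 4 ⊕ Fin 2 × Fin (0 + 1)) (LaurentPolynomial ℤ))
      (P' : Matrix (Fin 4 ⊕ Fin 2 × Fin (0 + 1)) (Fin 4 ⊕ Fin 2 × Fin 1) (LaurentPolynomial ℤ)),
      P * P' = 1 ∧ P' * P = 1 ∧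
      (P.map σ)ᵀ * Matrix.fromBlocks (L4 (T 1) (T (-1))) 0 0
          (Matrix.blockDiagonal (fun _ : Fin 1 => !![0, T 1 - 1; T (-1) - 1, 0])) * P
        = Matrix.fromBlocks ((1 : Matrix (Fin 4) (Fin 4) ℤ).map
            (Int.castRingHom (LaurentPolynomial ℤ))) 0 0
            (Matrix.blockDiagonal (fun _ : Fin (0 + 1) => !![0, T 1 - 1; T (-1) - 1, 0])) := by
  refine ⟨(P6 (T 1) (T (-1))).submatrix ixe ixe, (P6' (T 1) (T (-1))).submatrix ixe ixe,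
    ?_, ?_, ?_⟩
  · show (P6 (T 1) (T (-1))).submatrix ixe ixe * (P6' (T 1) (T (-1))).submatrix ixe ixe
      = (1 : Matrix (Fin 4 ⊕ Fin 2 × Fin 1) (Fin 4 ⊕ Fin 2 × Fin 1) (LaurentPolynomial ℤ))
    rw [Matrix.submatrix_mul_equiv, inv1 _ _ ts, Matrix.submatrix_one_equiv]
  · show (P6' (T 1) (T (-1))).submatrix ixe ixe * (P6 (T 1) (T (-1))).submatrix ixe ixe
      = (1 : Matrix (Fin 4 ⊕ Fin 2 × Fin 1) (Fin 4 ⊕ Fin 2 × Fin 1) (LaurentPolynomial ℤ))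
    rw [Matrix.submatrix_mul_equiv, inv2 _ _ ts, Matrix.submatrix_one_equiv]
  · show (((P6 (T 1) (T (-1))).submatrix ixe ixe).map σ)ᵀ
        * Matrix.fromBlocks (L4 (T 1) (T (-1))) 0 0
          (Matrix.blockDiagonal (fun _ : Fin 1 => !![0, T 1 - 1; T (-1) - 1, 0]))
        * (P6 (T 1) (T (-1))).submatrix ixe ixe
      = Matrix.fromBlocks ((1 : Matrix (Fin 4) (Fin 4) ℤ).map
            (Int.castRingHom (LaurentPolynomial ℤ))) 0 0
            (Matrix.blockDiagonal (fun _ : Fin 1 => !![0, T 1 - 1; T (-1) - 1, 0]))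
    rw [Matrix.map_one _ (map_zero _) (map_one _), blockL, blockD, ← Matrix.submatrix_map,
      P6_map, hσt, hσs, Matrix.transpose_submatrix, Matrix.submatrix_mul_equiv,
      Matrix.submatrix_mul_equiv, iso _ _ ts]

theorem not_iso (σ : LaurentPolynomial ℤ →+* LaurentPolynomial ℤ)
    (hσt : σ (T 1) = T (-1)) (hσs : σ (T (-1)) = T 1)
    (P : Matrix (Fin 4) (Fin 4 ⊕ Fin 2 × Fin 0) (LaurentPolynomial ℤ))
    (B : Matrix (Fin 2 × Fin 0) (Fin 2 × Fin 0) (LaurentPolynomial ℤ))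
    (h : (P.map σ)ᵀ * (L4 (T 1) (T (-1)) : Matrix (Fin 4) (Fin 4) (LaurentPolynomial ℤ)) * P
      = Matrix.fromBlocks ((1 : Matrix (Fin 4) (Fin 4) ℤ).map
            (Int.castRingHom (LaurentPolynomial ℤ))) 0 0 B) : False := by
  refine no_norm_one (fun i => P i (Sum.inl 0)) ?_
  have h4 : (((A4 (T 1) (T (-1)) : Matrix (Fin 4) (Fin 4) (LaurentPolynomial ℤ)) * P).map σ)ᵀ
        * ((A4 (T 1) (T (-1)) : Matrix (Fin 4) (Fin 4) (LaurentPolynomial ℤ)) * P)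
      = 4 • Matrix.fromBlocks ((1 : Matrix (Fin 4) (Fin 4) ℤ).map
            (Int.castRingHom (LaurentPolynomial ℤ))) 0 0 B := by
    rw [Matrix.map_mul, A4_map, hσt, hσs, Matrix.transpose_mul, Matrix.mul_assoc,
      ← Matrix.mul_assoc (A4 (T (-1)) (T 1))ᵀ, A4_sq _ _ ts, Matrix.smul_mul, Matrix.mul_smul,
      ← Matrix.mul_assoc, h]
  have h5 := congrFun (congrFun h4 (Sum.inl 0)) (Sum.inl 0)
  rw [Matrix.mul_apply] at h5
  simp only [Matrix.transpose_apply, Matrix.map_apply, sigma_eq σ hσt] at h5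
  have : ∀ i, (A4 (T 1) (T (-1)) *ᵥ fun i => P i (Sum.inl 0)) i
      = ((A4 (T 1) (T (-1)) : Matrix (Fin 4) (Fin 4) (LaurentPolynomial ℤ)) * P) i (Sum.inl 0) :=
    fun i => rfl
  simp only [this]
  rw [h5]
  simp

end Pool.Agent.W580.HT
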